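import Mathlib

/-!
# Gauss diagrams and virtual string links up to self-virtualization: definitions

We work with the standard Gauss diagram description of virtual string links
(Goussarov, Polyak, Viro; Kauffman): an `n`-component virtual string link is the same thing as a
Gauss diagram on `n` ordered oriented intervals, up to the Reidemeister moves R1, R2, R3.
Each classical crossing is recorded by a signed arrow which starts at the over passage and ends at
the under passage, and virtual crossings are not recorded (so planar isotopies, the virtual moves
and the mixed move do not change the Gauss diagram up to reparametrization).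
-/

namespace Pool.Agent.Lib.MP_a283c1_gt

/-- A Gauss diagram on `n` oriented intervals (strands).
* `arrows` is the finite set of (labels of) arrows, one for each classical crossing;
* `sign a` is the sign of the crossing `a`;
* the endpoints of the arrow `a` are `(a, true)`, its tail (over passage), and `(a, false)`,
  its head (under passage);
* `strand e` is the strand on which the endpoint `e` lies, and `pos e` is the parameter at which
  that strand runs through it. Distinct endpoints on one strand have distinct parameters.

(The values of `sign`, `strand` and `pos` off `arrows` are irrelevant.) -/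
structure GaussDiagram (n : ℕ) where
  arrows : Finset ℕ
  sign : ℕ → ℤˣ
  strand : ℕ × Bool → Fin n
  pos : ℕ × Bool → ℝ
  pos_inj : ∀ e f : ℕ × Bool, e.1 ∈ arrows → f.1 ∈ arrows → strand e = strand f →
    pos e = pos f → e = f

variable {n : ℕ}

namespace GaussDiagram

/-- The endpoints `e` and `f` lie on the same strand and no endpoint of the diagram lies strictly
between them. -/
def Adjacent (D : GaussDiagram n) (e f : ℕ × Bool) : Prop :=
  D.strand e = D.strand f ∧
    ∀ g : ℕ × Bool, g.1 ∈ D.arrows → D.strand g = D.strand e →
      ¬ (D.pos e < D.pos g ∧ D.pos g < D.pos f) ∧ ¬ (D.pos f < D.pos g ∧ D.pos g < D.pos e)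

/-- `1` if `e` comes before `f`, and `-1` otherwise (for `e`, `f` on one strand). -/
noncomputable def ord (D : GaussDiagram n) (e f : ℕ × Bool) : ℤˣ :=
  open Classical in if D.pos e < D.pos f then 1 else -1

/-- The diagram `D` with the arrows in the finite set `s` erased. -/
def erase (D : GaussDiagram n) (s : Finset ℕ) : GaussDiagram n where
  arrows := D.arrows \ s
  sign := D.sign
  strand := D.strand
  pos := D.pos
  pos_inj := fun e f he hf => D.pos_inj e f (Finset.mem_sdiff.1 he).1 (Finset.mem_sdiff.1 hf).1

/-- A diagram is monotone if it comes from a diagram all of whose strands are transverse to the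
horizontal lines (a virtual pure braid diagram): there is a height function on the
endpoints which increases along each strand and takes the same value at the two endpoints of
each arrow. -/
def IsMonotone (D : GaussDiagram n) : Prop :=
  ∃ height : ℕ × Bool → ℝ,
    (∀ a ∈ D.arrows, height (a, true) = height (a, false)) ∧
    (∀ e f : ℕ × Bool, e.1 ∈ D.arrows → f.1 ∈ D.arrows → D.strand e = D.strand f →
      D.pos e < D.pos f → height e < height f)

end GaussDiagram

open GaussDiagram

/-- `e` and `f` form one of the three pairs of neighbouring endpoints in an R3 triangle with
arrows `a` (top strand over middle strand), `b` (top strand over bottom strand) and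
`c` (middle strand over bottom strand). -/
def Paired (a b c : ℕ) (e f : ℕ × Bool) : Prop :=
  (e = (a, true) ∧ f = (b, true)) ∨ (e = (b, true) ∧ f = (a, true)) ∨
  (e = (a, false) ∧ f = (c, true)) ∨ (e = (c, true) ∧ f = (a, false)) ∨
  (e = (b, false) ∧ f = (c, false)) ∨ (e = (c, false) ∧ f = (b, false))

/-- The moves between Gauss diagrams which generate the equivalence relation defining
`vSL_n^{sv}`. -/
inductive Move : GaussDiagram n → GaussDiagram n → Prop
  /-- Reparametrization of the strands and relabelling of the arrows. -/
  | iso (D E : GaussDiagram n) (f : ℕ → ℕ) (hf : Set.BijOn f D.arrows E.arrows)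
      (hsign : ∀ a ∈ D.arrows, E.sign (f a) = D.sign a)
      (hstrand : ∀ a ∈ D.arrows, ∀ s : Bool, E.strand (f a, s) = D.strand (a, s))
      (hpos : ∀ a ∈ D.arrows, ∀ b ∈ D.arrows, ∀ s t : Bool, D.strand (a, s) = D.strand (b, t) →
        (D.pos (a, s) < D.pos (b, t) ↔ E.pos (f a, s) < E.pos (f b, t))) :
      Move D E
  /-- R1: an arrow with neighbouring endpoints may be erased. -/
  | r1 (D : GaussDiagram n) (a : ℕ) (ha : a ∈ D.arrows) (h : D.Adjacent (a, true) (a, false)) :
      Move D (D.erase {a})
  /-- R2: two arrows of opposite signs with neighbouring tails and neighbouring heads may be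
  erased. -/
  | r2 (D : GaussDiagram n) (a b : ℕ) (ha : a ∈ D.arrows) (hb : b ∈ D.arrows) (hab : a ≠ b)
      (hsign : D.sign b = - D.sign a)
      (ht : D.Adjacent (a, true) (b, true)) (hh : D.Adjacent (a, false) (b, false)) :
      Move D (D.erase {a, b})
  /-- R3: three strand pieces (top, middle, bottom) cross pairwise; `a` is the crossing of
  top over middle, `b` top over bottom, `c` middle over bottom. The move reverses the order of the
  two endpoints on each of the three pieces and changes nothing else. The conditions on the signs
  are those satisfied by three pairwise transverse oriented lines in the plane. -/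
  | r3 (D E : GaussDiagram n) (a b c : ℕ)
      (ha : a ∈ D.arrows) (hb : b ∈ D.arrows) (hc : c ∈ D.arrows)
      (hab : a ≠ b) (hac : a ≠ c) (hbc : b ≠ c)
      (htop : D.Adjacent (a, true) (b, true)) (hmid : D.Adjacent (a, false) (c, true))
      (hbot : D.Adjacent (b, false) (c, false))
      (hsign₁ : D.sign a * D.sign b = D.ord (a, false) (c, true) * D.ord (b, false) (c, false))
      (hsign₂ : D.sign b * D.sign c = D.ord (a, true) (b, true) * D.ord (a, false) (c, true))
      (hsign₃ : D.sign a * D.sign c = D.ord (a, true) (b, true) * D.ord (b, false) (c, false))
      (harr : E.arrows = D.arrows) (hsign : E.sign = D.sign) (hstrand : E.strand = D.strand)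
      (hpair : ∀ e f : ℕ × Bool, Paired a b c e f → (E.pos e < E.pos f ↔ D.pos f < D.pos e))
      (hpos : ∀ e f : ℕ × Bool, e.1 ∈ D.arrows → f.1 ∈ D.arrows → D.strand e = D.strand f →
        ¬ Paired a b c e f → (E.pos e < E.pos f ↔ D.pos e < D.pos f)) :
      Move D E
  /-- Self-virtualization: a crossing of a strand with itself may be made virtual, that is,
  its arrow may be erased. -/
  | sv (D : GaussDiagram n) (a : ℕ) (ha : a ∈ D.arrows)
      (h : D.strand (a, true) = D.strand (a, false)) :
      Move D (D.erase {a})

/-- Equality in `vSL_n^{sv}`: the equivalence relation generated by the moves. -/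
def SVEquiv : GaussDiagram n → GaussDiagram n → Prop := Relation.EqvGen Move


end Pool.Agent.Lib.MP_a283c1_gt
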