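import Pool.Agent.Lib.MP_a283c1_gt.Defs

/-!
# Virtual string links up to self-virtualization: not all are monotone (proof)

Idea of the proof. Number the strands `0, ..., n - 1`. For an arrow `x` from strand `0` to strand
`1`, and an arrow `y` from strand `2` to strand `3`, let `A(x, y)` be the number of arrows `z`
between a strand in `{0, 1}` and a strand in `{2, 3}`, counted with suitable signs, which are below
`x` and above `y` (an endpoint of `z` comes before the endpoint of `x` on the same strand and the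
other endpoint of `z` comes after the endpoint of `y` on the same strand), and let `B(x, y)` be the
same count for above `x` and below `y`. These labels do not change under R1, R2, R3 and
self-virtualization, so that the sum of `sign x * sign y * A(x, y) * B(x, y)` over
all pairs `(x, y)` is an invariant `phi`. In a monotone diagram `x` is below `y` or `y` is below
`x`, up to equality of heights, so `A(x, y) = 0` or `B(x, y) = 0`, and `phi = 0`. On the other hand
there is a diagram with four arrows and `phi = 1`.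
-/

namespace Pool.Agent.Lib.MP_a283c1_gt

open GaussDiagram

variable {n : ℕ}

/-! ### The invariant -/

/-- `1` on strand `i`, `-1` on strand `j`, `0` elsewhere. -/
def wt (i j k : ℕ) : ℤ := if k = i then 1 else if k = j then -1 else 0

/-- `1` for a tail and `-1` for a head. -/
def sg (b : Bool) : ℤ := if b then 1 else -1

open Classical in
/-- The indicator of a proposition. -/
noncomputable def ind (P : Prop) : ℤ := if P then 1 else 0

theorem ind_congr {P Q : Prop} (h : P ↔ Q) : ind P = ind Q := by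
  rw [propext h]

theorem ind_eq_ite (P : Prop) [Decidable P] : ind P = if P then 1 else 0 := by
  unfold ind
  by_cases h : P <;> simp [h]

theorem ind_true {P : Prop} (h : P) : ind P = 1 := by
  simp [ind, h]

theorem ind_false {P : Prop} (h : ¬ P) : ind P = 0 := by
  simp [ind, h]

namespace GaussDiagram

/-- `Side D true x e`: the endpoint `e` lies on the same strand as an endpoint of `x` and before
it; `Side D false x e`: the same with after. -/
def Side (D : GaussDiagram n) (p : Bool) (x : ℕ) (e : ℕ × Bool) : Prop :=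
  ∃ b : Bool, D.strand e = D.strand (x, b) ∧
    (if p then D.pos e < D.pos (x, b) else D.pos (x, b) < D.pos e)

/-- The contribution of one orientation of the arrow `z` to the label of the pair `(x, y)`. -/
noncomputable def half (D : GaussDiagram n) (i₀ i₁ j₀ j₁ : ℕ) (p q : Bool) (x y z : ℕ)
    (b : Bool) : ℤ :=
  (D.sign z : ℤ) * sg b * wt i₀ i₁ (D.strand (z, b)) * wt j₀ j₁ (D.strand (z, !b)) *
    ind (D.Side p x (z, b)) * ind (D.Side q y (z, !b))

/-- The contribution of the arrow `z` to the label of the pair `(x, y)`. -/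
noncomputable def term (D : GaussDiagram n) (i₀ i₁ j₀ j₁ : ℕ) (p q : Bool) (x y z : ℕ) : ℤ :=
  D.half i₀ i₁ j₀ j₁ p q x y z true + D.half i₀ i₁ j₀ j₁ p q x y z false

/-- The label of the pair `(x, y)`. -/
noncomputable def label (D : GaussDiagram n) (i₀ i₁ j₀ j₁ : ℕ) (p q : Bool) (x y : ℕ) : ℤ :=
  ∑ z ∈ D.arrows, D.term i₀ i₁ j₀ j₁ p q x y z

/-- `x` is an arrow from strand `i` to strand `j`. -/
def IsArrow (D : GaussDiagram n) (i j : ℕ) (x : ℕ) : Prop :=
  (D.strand (x, true) : ℕ) = i ∧ (D.strand (x, false) : ℕ) = j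

end GaussDiagram

/-- The label is symmetric (up to sign) under exchanging the roles of `x` and `y`. -/
theorem term_symm (D : GaussDiagram n) (i₀ i₁ j₀ j₁ : ℕ) (p q : Bool) (x y z : ℕ) :
    D.term j₀ j₁ i₀ i₁ q p y x z = - D.term i₀ i₁ j₀ j₁ p q x y z := by
  unfold GaussDiagram.term GaussDiagram.half
  simp only [Bool.not_true, Bool.not_false, sg]
  simp only [if_true, Bool.false_eq_true, if_false]
  ring

theorem label_symm (D : GaussDiagram n) (i₀ i₁ j₀ j₁ : ℕ) (p q : Bool) (x y : ℕ) :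
    D.label j₀ j₁ i₀ i₁ q p y x = - D.label i₀ i₁ j₀ j₁ p q x y := by
  unfold GaussDiagram.label
  rw [← Finset.sum_neg_distrib]
  exact Finset.sum_congr rfl fun z _ => term_symm D i₀ i₁ j₀ j₁ p q x y z

theorem wt_self_left (i j : ℕ) : wt i j i = 1 := by simp [wt]

theorem wt_self_right {i j : ℕ} (h : i ≠ j) : wt i j j = -1 := by
  simp [wt, h.symm]

theorem wt_other {i j k : ℕ} (h : k ≠ i) (h' : k ≠ j) : wt i j k = 0 := by
  simp [wt, h, h']

/-- The side of an endpoint `e` on the strand of the endpoint `(x, t)` of `x`. -/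
theorem side_iff (D : GaussDiagram n) (p : Bool) (x : ℕ) (e : ℕ × Bool) (t : Bool)
    (h : D.strand e = D.strand (x, t)) (h' : D.strand (x, t) ≠ D.strand (x, !t)) :
    D.Side p x e ↔ (if p then D.pos e < D.pos (x, t) else D.pos (x, t) < D.pos e) := by
  unfold GaussDiagram.Side
  constructor
  · rintro ⟨b, hb, hb'⟩
    by_cases hbt : b = t
    · subst hbt; exact hb'
    · have : b = !t := by
        cases b <;> cases t <;> first | rfl | exact absurd rfl hbt
      subst this
      exact absurd (h.symm.trans hb) h'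
  · intro hp
    exact ⟨t, h, hp⟩

/-- Neighbouring endpoints, none of which belongs to `y`, are on the same side of `y`. -/
theorem side_adjacent (D : GaussDiagram n) (q : Bool) (y : ℕ) (e f : ℕ × Bool)
    (hy : y ∈ D.arrows) (he : e.1 ∈ D.arrows) (hf : f.1 ∈ D.arrows)
    (hye : e.1 ≠ y) (hyf : f.1 ≠ y)
    (hadj : D.Adjacent e f) : D.Side q y e ↔ D.Side q y f := by
  have key : ∀ e f : ℕ × Bool, e.1 ∈ D.arrows → f.1 ∈ D.arrows → e.1 ≠ y → f.1 ≠ y →
      D.Adjacent e f → D.Side q y e → D.Side q y f := by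
    intro e f he hf hye hyf hadj
    rintro ⟨b, hb, hb'⟩
    refine ⟨b, hadj.1.symm.trans hb, ?_⟩
    have h1 := hadj.2 (y, b) hy hb.symm
    have hne : D.pos (y, b) ≠ D.pos f := by
      intro h
      have := D.pos_inj (y, b) f hy hf (hb.symm.trans hadj.1) h
      apply hyf
      rw [← this]
    cases q
    · simp only [Bool.false_eq_true, if_false] at hb' ⊢
      rcases lt_or_gt_of_ne hne with h | h
      · exact h
      · exact absurd ⟨h, hb'⟩ h1.2
    · simp only [if_true] at hb' ⊢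
      rcases lt_or_gt_of_ne hne with h | h
      · exact absurd ⟨hb', h⟩ h1.1
      · exact h
  have hadj' : D.Adjacent f e := by
    refine ⟨hadj.1.symm, fun g hg hg' => ?_⟩
    have := hadj.2 g hg (hg'.trans hadj.1.symm)
    exact ⟨this.2, this.1⟩
  exact ⟨key e f he hf hye hyf hadj, key f e hf he hyf hye hadj'⟩

/-! ### Invariance under R3 -/

/-- The hypotheses of the move R3. -/
structure R3 (D E : GaussDiagram n) (a b c : ℕ) : Prop where
  ha : a ∈ D.arrows
  hb : b ∈ D.arrows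
  hc : c ∈ D.arrows
  hab : a ≠ b
  hac : a ≠ c
  hbc : b ≠ c
  htop : D.Adjacent (a, true) (b, true)
  hmid : D.Adjacent (a, false) (c, true)
  hbot : D.Adjacent (b, false) (c, false)
  hsign₁ : D.sign a * D.sign b = D.ord (a, false) (c, true) * D.ord (b, false) (c, false)
  hsign₂ : D.sign b * D.sign c = D.ord (a, true) (b, true) * D.ord (a, false) (c, true)
  hsign₃ : D.sign a * D.sign c = D.ord (a, true) (b, true) * D.ord (b, false) (c, false)
  harr : E.arrows = D.arrows
  hsign : E.sign = D.sign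
  hstrand : E.strand = D.strand
  hpair : ∀ e f : ℕ × Bool, Paired a b c e f → (E.pos e < E.pos f ↔ D.pos f < D.pos e)
  hpos : ∀ e f : ℕ × Bool, e.1 ∈ D.arrows → f.1 ∈ D.arrows → D.strand e = D.strand f →
        ¬ Paired a b c e f → (E.pos e < E.pos f ↔ D.pos e < D.pos f)

theorem Paired.symm {a b c : ℕ} {e f : ℕ × Bool} (h : Paired a b c e f) : Paired a b c f e := by
  unfold Paired at h ⊢
  tauto

theorem Paired.mem_left {a b c : ℕ} {e f : ℕ × Bool} (h : Paired a b c e f) :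
    e.1 = a ∨ e.1 = b ∨ e.1 = c := by
  rcases h with ⟨h, -⟩ | ⟨h, -⟩ | ⟨h, -⟩ | ⟨h, -⟩ | ⟨h, -⟩ | ⟨h, -⟩ <;> simp [h]

theorem Paired.mem_right {a b c : ℕ} {e f : ℕ × Bool} (h : Paired a b c e f) :
    f.1 = a ∨ f.1 = b ∨ f.1 = c := h.symm.mem_left

variable {D E : GaussDiagram n} {a b c : ℕ}

theorem R3.side_iff (R : R3 D E a b c) (p : Bool) (x : ℕ) (e : ℕ × Bool)
    (hx : x ∈ D.arrows) (he : e.1 ∈ D.arrows)
    (h : ∀ t, ¬ Paired a b c e (x, t)) : E.Side p x e ↔ D.Side p x e := by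
  unfold GaussDiagram.Side
  rw [R.hstrand]
  refine exists_congr fun t => and_congr_right fun ht => ?_
  cases p
  · simp only [Bool.false_eq_true, if_false]
    exact R.hpos (x, t) e hx he ht.symm (fun h' => h t h'.symm)
  · simp only [if_true]
    exact R.hpos e (x, t) he hx ht (h t)

theorem R3.half_eq (R : R3 D E a b c) {i₀ i₁ j₀ j₁ : ℕ} {p q : Bool} {x y z : ℕ} (t : Bool)
    (h₁ : E.Side p x (z, t) ↔ D.Side p x (z, t)) (h₂ : E.Side q y (z, !t) ↔ D.Side q y (z, !t)) :
    E.half i₀ i₁ j₀ j₁ p q x y z t = D.half i₀ i₁ j₀ j₁ p q x y z t := by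
  unfold GaussDiagram.half
  rw [R.hsign, R.hstrand, ind_congr h₁, ind_congr h₂]

theorem R3.term_eq (R : R3 D E a b c) {i₀ i₁ j₀ j₁ : ℕ} {p q : Bool} {x y z : ℕ}
    (h₁ : ∀ t, E.Side p x (z, t) ↔ D.Side p x (z, t))
    (h₂ : ∀ t, E.Side q y (z, t) ↔ D.Side q y (z, t)) :
    E.term i₀ i₁ j₀ j₁ p q x y z = D.term i₀ i₁ j₀ j₁ p q x y z := by
  unfold GaussDiagram.term
  rw [R.half_eq true (h₁ _) (h₂ _), R.half_eq false (h₁ _) (h₂ _)]

/-- The sign `±1` attached to before/after. -/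
def sp (p : Bool) : ℤ := if p then 1 else -1

theorem two_ind (D : GaussDiagram n) (p : Bool) (e f : ℕ × Bool) (hne : D.pos e ≠ D.pos f) :
    2 * ind (if p then D.pos e < D.pos f else D.pos f < D.pos e) = 1 + sp p * (D.ord e f : ℤˣ) := by
  unfold GaussDiagram.ord ind sp
  rcases lt_or_gt_of_ne hne with h | h
  · have h' : ¬ D.pos f < D.pos e := not_lt.2 h.le
    cases p <;> simp [h, h']
  · have h' : ¬ D.pos e < D.pos f := not_lt.2 h.le
    cases p <;> simp [h, h']

theorem R3.ord_paired (R : R3 D E a b c) {e f : ℕ × Bool} (h : Paired a b c e f)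
    (hne : D.pos e ≠ D.pos f) : ((E.ord e f : ℤˣ) : ℤ) = - ((D.ord e f : ℤˣ) : ℤ) := by
  unfold GaussDiagram.ord
  have := R.hpair e f h
  rcases lt_or_gt_of_ne hne with h | h
  · have h' : ¬ D.pos f < D.pos e := not_lt.2 h.le
    have h'' : ¬ E.pos e < E.pos f := fun h3 => h' (this.1 h3)
    simp [h, h'']
  · have h' : ¬ D.pos e < D.pos f := not_lt.2 h.le
    have h'' : E.pos e < E.pos f := this.2 h
    simp [h', h'']

theorem ord_swap (D : GaussDiagram n) {e f : ℕ × Bool} (hne : D.pos e ≠ D.pos f) :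
    D.ord f e = - D.ord e f := by
  unfold GaussDiagram.ord
  rcases lt_or_gt_of_ne hne with h | h
  · have h' : ¬ D.pos f < D.pos e := not_lt.2 h.le
    simp [h, h']
  · have h' : ¬ D.pos e < D.pos f := not_lt.2 h.le
    simp [h, h']

theorem term_eq_half (D : GaussDiagram n) (i₀ i₁ j₀ j₁ : ℕ) (p q : Bool) (x y z : ℕ) (s : Bool) :
    D.term i₀ i₁ j₀ j₁ p q x y z =
      D.half i₀ i₁ j₀ j₁ p q x y z s + D.half i₀ i₁ j₀ j₁ p q x y z (!s) := by
  unfold GaussDiagram.term
  cases s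
  · simp only [Bool.not_false]; ring
  · simp only [Bool.not_true]

/-- The cancellation of the contributions of the two other arrows of an R3 triangle which
contains `x`. -/
theorem R3.two_terms (R : R3 D E a b c) {i₀ i₁ j₀ j₁ : ℕ} (hi : i₀ ≠ i₁)
    (h00 : i₀ ≠ j₀) (h01 : i₀ ≠ j₁) (h10 : i₁ ≠ j₀) (h11 : i₁ ≠ j₁)
    {p q : Bool} {x y z₀ z₁ : ℕ} {s₀ s₁ t : Bool}
    (hx₀ : (D.strand (x, t) : ℕ) = i₀) (hx₁ : (D.strand (x, !t) : ℕ) = i₁)
    (hs₀ : D.strand (z₀, s₀) = D.strand (x, t)) (hs₁ : D.strand (z₁, s₁) = D.strand (x, !t))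
    (hr : D.strand (z₀, !s₀) = D.strand (z₁, !s₁))
    (hP₀ : Paired a b c (z₀, s₀) (x, t)) (hP₁ : Paired a b c (z₁, s₁) (x, !t))
    (hn₀ : D.pos (z₀, s₀) ≠ D.pos (x, t)) (hn₁ : D.pos (z₁, s₁) ≠ D.pos (x, !t))
    (hS : D.Side q y (z₀, !s₀) ↔ D.Side q y (z₁, !s₁))
    (hE₀ : E.Side q y (z₀, !s₀) ↔ D.Side q y (z₀, !s₀))
    (hE₁ : E.Side q y (z₁, !s₁) ↔ D.Side q y (z₁, !s₁))
    (hsgn : (D.sign z₀ : ℤ) * sg s₀ * (D.ord (z₀, s₀) (x, t) : ℤˣ) =
      (D.sign z₁ : ℤ) * sg s₁ * (D.ord (z₁, s₁) (x, !t) : ℤˣ)) :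
    E.term i₀ i₁ j₀ j₁ p q x y z₀ + E.term i₀ i₁ j₀ j₁ p q x y z₁ =
      D.term i₀ i₁ j₀ j₁ p q x y z₀ + D.term i₀ i₁ j₀ j₁ p q x y z₁ := by
  have hxx : D.strand (x, t) ≠ D.strand (x, !t) := by
    intro h
    apply hi
    rw [← hx₀, ← hx₁, h]
  have hxx' : D.strand (x, !t) ≠ D.strand (x, !!t) := by
    rw [Bool.not_not]; exact hxx.symm
  -- the four relevant half terms
  have eD₀ := Pool.Agent.Lib.MP_a283c1_gt.side_iff D p x (z₀, s₀) t hs₀ hxx
  have eD₁ := Pool.Agent.Lib.MP_a283c1_gt.side_iff D p x (z₁, s₁) (!t) hs₁ hxx'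
  have eE₀ := Pool.Agent.Lib.MP_a283c1_gt.side_iff E p x (z₀, s₀) t
    (by rw [R.hstrand]; exact hs₀) (by rw [R.hstrand]; exact hxx)
  have eE₁ := Pool.Agent.Lib.MP_a283c1_gt.side_iff E p x (z₁, s₁) (!t)
    (by rw [R.hstrand]; exact hs₁) (by rw [R.hstrand]; exact hxx')
  have hnE : ∀ {e f : ℕ × Bool}, Paired a b c e f → D.pos e ≠ D.pos f → E.pos e ≠ E.pos f := by
    intro e f hef hne h
    have h1 := R.hpair e f hef
    have h2 := R.hpair f e hef.symm
    rcases lt_or_gt_of_ne hne with h3 | h3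
    · exact absurd (h2.2 h3) (by rw [h]; exact lt_irrefl _)
    · exact absurd (h1.2 h3) (by rw [h]; exact lt_irrefl _)
  have kD₀ := two_ind D p (z₀, s₀) (x, t) hn₀
  have kD₁ := two_ind D p (z₁, s₁) (x, !t) hn₁
  have kE₀ := two_ind E p (z₀, s₀) (x, t) (hnE hP₀ hn₀)
  have kE₁ := two_ind E p (z₁, s₁) (x, !t) (hnE hP₁ hn₁)
  rw [R.ord_paired hP₀ hn₀] at kE₀
  rw [R.ord_paired hP₁ hn₁] at kE₁
  rw [← ind_congr eD₀] at kD₀
  rw [← ind_congr eD₁] at kD₁
  rw [← ind_congr eE₀] at kE₀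
  rw [← ind_congr eE₁] at kE₁
  -- the vanishing half terms
  have v₀ : wt j₀ j₁ (D.strand (z₀, s₀)) = 0 := by
    rw [hs₀, hx₀]; exact wt_other h00 h01
  have v₁ : wt j₀ j₁ (D.strand (z₁, s₁)) = 0 := by
    rw [hs₁, hx₁]; exact wt_other h10 h11
  have w₀ : wt i₀ i₁ (D.strand (z₀, s₀)) = 1 := by
    rw [hs₀, hx₀]; exact wt_self_left _ _
  have w₁ : wt i₀ i₁ (D.strand (z₁, s₁)) = -1 := by
    rw [hs₁, hx₁]; exact wt_self_right hi
  rw [term_eq_half E _ _ _ _ _ _ _ _ z₀ s₀, term_eq_half E _ _ _ _ _ _ _ _ z₁ s₁,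
    term_eq_half D _ _ _ _ _ _ _ _ z₀ s₀, term_eq_half D _ _ _ _ _ _ _ _ z₁ s₁]
  unfold GaussDiagram.half
  rw [R.hsign, R.hstrand, Bool.not_not, Bool.not_not, v₀, v₁, w₀, w₁, hr, ind_congr hE₀,
    ind_congr hE₁, ind_congr hS]
  set W := wt j₀ j₁ (D.strand (z₁, !s₁)) with hW
  set S := ind (D.Side q y (z₁, !s₁)) with hSdef
  have hgoal : ∀ (A₀ A₁ B₀ B₁ : ℤ), 2 * A₀ = 1 + sp p * -((D.ord (z₀, s₀) (x, t) : ℤˣ) : ℤ) →
      2 * A₁ = 1 + sp p * -((D.ord (z₁, s₁) (x, !t) : ℤˣ) : ℤ) →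
      2 * B₀ = 1 + sp p * ((D.ord (z₀, s₀) (x, t) : ℤˣ) : ℤ) →
      2 * B₁ = 1 + sp p * ((D.ord (z₁, s₁) (x, !t) : ℤˣ) : ℤ) →
      (D.sign z₀ : ℤ) * sg s₀ * A₀ - (D.sign z₁ : ℤ) * sg s₁ * A₁ =
      (D.sign z₀ : ℤ) * sg s₀ * B₀ - (D.sign z₁ : ℤ) * sg s₁ * B₁ := by
    intro A₀ A₁ B₀ B₁ h1 h2 h3 h4
    have : 2 * ((D.sign z₀ : ℤ) * sg s₀ * A₀ - (D.sign z₁ : ℤ) * sg s₁ * A₁) =
      2 * ((D.sign z₀ : ℤ) * sg s₀ * B₀ - (D.sign z₁ : ℤ) * sg s₁ * B₁) := by
      linear_combination (D.sign z₀ : ℤ) * sg s₀ * h1 - (D.sign z₁ : ℤ) * sg s₁ * h2 -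
        (D.sign z₀ : ℤ) * sg s₀ * h3 + (D.sign z₁ : ℤ) * sg s₁ * h4 - 2 * sp p * hsgn
    linarith
  have := hgoal _ _ _ _ kE₀ kE₁ kD₀ kD₁
  linear_combination W * S * this

theorem sum_two (s : Finset ℕ) (f g : ℕ → ℤ) {z₀ z₁ : ℕ} (h₀ : z₀ ∈ s) (h₁ : z₁ ∈ s)
    (hne : z₀ ≠ z₁) (hrest : ∀ z ∈ s, z ≠ z₀ → z ≠ z₁ → f z = g z)
    (h : f z₀ + f z₁ = g z₀ + g z₁) : ∑ z ∈ s, f z = ∑ z ∈ s, g z := by
  have h₁' : z₁ ∈ s.erase z₀ := Finset.mem_erase.2 ⟨hne.symm, h₁⟩
  rw [← Finset.add_sum_erase s f h₀, ← Finset.add_sum_erase s g h₀,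
    ← Finset.add_sum_erase _ f h₁', ← Finset.add_sum_erase _ g h₁', ← add_assoc, ← add_assoc, h]
  congr 1
  refine Finset.sum_congr rfl fun z hz => ?_
  rw [Finset.mem_erase, Finset.mem_erase] at hz
  exact hrest z hz.2.2 hz.2.1 hz.1

/-- An arrow between the strands `i₀` and `i₁` does not contribute to any label. -/
theorem term_zero (D : GaussDiagram n) {i₀ i₁ j₀ j₁ : ℕ}
    (p q : Bool) (x y z : ℕ) (hz : ∀ s, wt j₀ j₁ (D.strand (z, s)) = 0) :
    D.term i₀ i₁ j₀ j₁ p q x y z = 0 := by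
  unfold GaussDiagram.term GaussDiagram.half
  rw [hz, hz]
  ring

theorem IsArrow.wt_zero {D : GaussDiagram n} {i₀ i₁ j₀ j₁ : ℕ} {x : ℕ}
    (h00 : i₀ ≠ j₀) (h01 : i₀ ≠ j₁) (h10 : i₁ ≠ j₀) (h11 : i₁ ≠ j₁)
    (hx : D.IsArrow i₀ i₁ x) (s : Bool) : wt j₀ j₁ (D.strand (x, s)) = 0 := by
  cases s
  · rw [hx.2]; exact wt_other h10 h11
  · rw [hx.1]; exact wt_other h00 h01

theorem units_aux (u v w r : ℤˣ) (h : u * v = w * r) : (u : ℤ) * w = v * r := by
  rcases Int.units_eq_one_or u with rfl | rfl <;> rcases Int.units_eq_one_or v with rfl | rfl <;>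
    rcases Int.units_eq_one_or w with rfl | rfl <;> rcases Int.units_eq_one_or r with rfl | rfl <;>
    revert h <;> decide

/-- Invariance of the labels under R3, if `x` is one of the three arrows involved. -/
theorem R3.label_eq_of_x (R : R3 D E a b c) {i₀ i₁ j₀ j₁ : ℕ} (hi : i₀ ≠ i₁)
    (h00 : i₀ ≠ j₀) (h01 : i₀ ≠ j₁) (h10 : i₁ ≠ j₀) (h11 : i₁ ≠ j₁)
    {p q : Bool} {x y : ℕ} (hx : D.IsArrow i₀ i₁ x)
    (hy : y ∈ D.arrows) (hya : y ≠ a) (hyb : y ≠ b) (hyc : y ≠ c)
    (hxabc : x = a ∨ x = b ∨ x = c) :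
    E.label i₀ i₁ j₀ j₁ p q x y = D.label i₀ i₁ j₀ j₁ p q x y := by
  have hEy : ∀ e : ℕ × Bool, e.1 ∈ D.arrows → (E.Side q y e ↔ D.Side q y e) := by
    intro e he
    refine R.side_iff q y e hy he fun t ht => ?_
    rcases ht.mem_right with h | h | h
    · exact hya h
    · exact hyb h
    · exact hyc h
  have hmemx : x ∈ D.arrows := by
    rcases hxabc with rfl | rfl | rfl
    · exact R.ha
    · exact R.hb
    · exact R.hc
  -- arrows other than the two partners of `x`
  have hgen : ∀ z ∈ D.arrows, (z = x ∨ (z ≠ a ∧ z ≠ b ∧ z ≠ c)) →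
      E.term i₀ i₁ j₀ j₁ p q x y z = D.term i₀ i₁ j₀ j₁ p q x y z := by
    intro z hz hz'
    rcases hz' with rfl | ⟨hza, hzb, hzc⟩
    · rw [term_zero D p q z y z (IsArrow.wt_zero h00 h01 h10 h11 hx),
        term_zero E p q z y z (fun s => by
          rw [R.hstrand]; exact IsArrow.wt_zero h00 h01 h10 h11 hx s)]
    · refine R.term_eq (fun t => R.side_iff p x (z, t) hmemx hz fun s hs => ?_)
        (fun t => hEy (z, t) hz)
      rcases hs.mem_left with h | h | h
      · exact hza h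
      · exact hzb h
      · exact hzc h
  have pne : ∀ {e f : ℕ × Bool}, e.1 ∈ D.arrows → f.1 ∈ D.arrows → D.strand e = D.strand f →
      e ≠ f → D.pos e ≠ D.pos f := fun he hf hs hne h => hne (D.pos_inj _ _ he hf hs h)
  have hab' : ((b, true) : ℕ × Bool) ≠ (a, true) := fun h => R.hab (Prod.ext_iff.1 h).1.symm
  have hac' : ((c, true) : ℕ × Bool) ≠ (a, false) := fun h => R.hac (Prod.ext_iff.1 h).1.symm
  have hbc' : ((c, false) : ℕ × Bool) ≠ (b, false) := fun h => R.hbc (Prod.ext_iff.1 h).1.symm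
  have nT := pne R.hb R.ha R.htop.1.symm hab'
  have nM := pne R.hc R.ha R.hmid.1.symm hac'
  have nB := pne R.hc R.hb R.hbot.1.symm hbc'
  have STB : D.Side q y (b, false) ↔ D.Side q y (c, false) :=
    side_adjacent D q y _ _ hy R.hb R.hc (Ne.symm hyb) (Ne.symm hyc) R.hbot
  have STM : D.Side q y (a, false) ↔ D.Side q y (c, true) :=
    side_adjacent D q y _ _ hy R.ha R.hc (Ne.symm hya) (Ne.symm hyc) R.hmid
  have STT : D.Side q y (a, true) ↔ D.Side q y (b, true) :=
    side_adjacent D q y _ _ hy R.ha R.hb (Ne.symm hya) (Ne.symm hyb) R.htop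
  have u₁ := units_aux _ _ _ _ R.hsign₁
  have u₂ := units_aux _ _ _ _ R.hsign₂
  have u₃ := units_aux _ _ _ _ R.hsign₃
  unfold GaussDiagram.label
  rw [R.harr]
  rcases hxabc with rfl | rfl | rfl
  · -- `x = a`
    refine sum_two _ _ _ R.hb R.hc R.hbc (fun z hz hzb hzc => hgen z hz ?_) ?_
    · by_cases hza : z = x
      · exact Or.inl hza
      · exact Or.inr ⟨hza, hzb, hzc⟩
    · refine R.two_terms (s₀ := true) (s₁ := true) (t := true) hi h00 h01 h10 h11 hx.1 hx.2
        R.htop.1.symm R.hmid.1.symm R.hbot.1 ?_ ?_ nT nM STB (hEy _ R.hb) (hEy _ R.hc) ?_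
      · exact Or.inr (Or.inl ⟨rfl, rfl⟩)
      · exact Or.inr (Or.inr (Or.inr (Or.inl ⟨rfl, rfl⟩)))
      · show (D.sign b : ℤ) * sg true * (D.ord (b, true) (x, true) : ℤˣ) =
          (D.sign c : ℤ) * sg true * (D.ord (c, true) (x, false) : ℤˣ)
        rw [ord_swap D nT.symm, ord_swap D nM.symm]
        simp only [sg, if_true, Units.val_neg]
        linear_combination -u₂
  · -- `x = b`
    refine sum_two _ _ _ R.ha R.hc R.hac (fun z hz hza hzc => hgen z hz ?_) ?_
    · by_cases hzb : z = x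
      · exact Or.inl hzb
      · exact Or.inr ⟨hza, hzb, hzc⟩
    · refine R.two_terms (s₀ := true) (s₁ := false) (t := true) hi h00 h01 h10 h11 hx.1 hx.2
        R.htop.1 R.hbot.1.symm R.hmid.1 ?_ ?_ nT.symm nB STM (hEy _ R.ha) (hEy _ R.hc) ?_
      · exact Or.inl ⟨rfl, rfl⟩
      · exact Or.inr (Or.inr (Or.inr (Or.inr (Or.inr ⟨rfl, rfl⟩))))
      · show (D.sign a : ℤ) * sg true * (D.ord (a, true) (x, true) : ℤˣ) =
          (D.sign c : ℤ) * sg false * (D.ord (c, false) (x, false) : ℤˣ)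
        rw [ord_swap D nB.symm]
        simp only [sg, if_true, Bool.false_eq_true, if_false, Units.val_neg]
        linear_combination u₃
  · -- `x = c`
    refine sum_two _ _ _ R.ha R.hb R.hab (fun z hz hza hzb => hgen z hz ?_) ?_
    · by_cases hzc : z = x
      · exact Or.inl hzc
      · exact Or.inr ⟨hza, hzb, hzc⟩
    · refine R.two_terms (s₀ := false) (s₁ := false) (t := true) hi h00 h01 h10 h11 hx.1 hx.2
        R.hmid.1 R.hbot.1 R.htop.1 ?_ ?_ nM.symm nB.symm STT (hEy _ R.ha) (hEy _ R.hb) ?_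
      · exact Or.inr (Or.inr (Or.inl ⟨rfl, rfl⟩))
      · exact Or.inr (Or.inr (Or.inr (Or.inr (Or.inl ⟨rfl, rfl⟩))))
      · show (D.sign a : ℤ) * sg false * (D.ord (a, false) (x, true) : ℤˣ) =
          (D.sign b : ℤ) * sg false * (D.ord (b, false) (x, false) : ℤˣ)
        simp only [sg, Bool.false_eq_true, if_false]
        linear_combination -u₁

/-- Invariance of the labels under R3. -/
theorem R3.label_eq (R : R3 D E a b c) {i₀ i₁ j₀ j₁ : ℕ} (hi : i₀ ≠ i₁) (hj : j₀ ≠ j₁)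
    (h00 : i₀ ≠ j₀) (h01 : i₀ ≠ j₁) (h10 : i₁ ≠ j₀) (h11 : i₁ ≠ j₁)
    {p q : Bool} {x y : ℕ} (hxm : x ∈ D.arrows) (hym : y ∈ D.arrows)
    (hx : D.IsArrow i₀ i₁ x) (hy : D.IsArrow j₀ j₁ y) :
    E.label i₀ i₁ j₀ j₁ p q x y = D.label i₀ i₁ j₀ j₁ p q x y := by
  -- `x` and `y` share no strand, but any two arrows of the triangle do
  have hshare : ∀ s t, D.strand (x, s) ≠ D.strand (y, t) := by
    intro s t h
    have h' : (D.strand (x, s) : ℕ) = D.strand (y, t) := by rw [h]
    cases s <;> cases t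
    · rw [hx.2, hy.2] at h'; exact h11 h'
    · rw [hx.2, hy.1] at h'; exact h10 h'
    · rw [hx.1, hy.2] at h'; exact h01 h'
    · rw [hx.1, hy.1] at h'; exact h00 h'
  by_cases hx' : x = a ∨ x = b ∨ x = c
  · have hy' : y ≠ a ∧ y ≠ b ∧ y ≠ c := by
      refine ⟨?_, ?_, ?_⟩ <;> rintro rfl <;> rcases hx' with rfl | rfl | rfl
      · exact hshare true true rfl
      · exact hshare true true R.htop.1.symm
      · exact hshare true false R.hmid.1.symm
      · exact hshare true true R.htop.1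
      · exact hshare true true rfl
      · exact hshare false false R.hbot.1.symm
      · exact hshare false true R.hmid.1
      · exact hshare false false R.hbot.1
      · exact hshare true true rfl
    exact R.label_eq_of_x hi h00 h01 h10 h11 hx hym hy'.1 hy'.2.1 hy'.2.2 hx'
  · by_cases hy' : y = a ∨ y = b ∨ y = c
    · push Not at hx'
      have := R.label_eq_of_x (p := q) (q := p) hj h00.symm h10.symm h01.symm h11.symm hy hxm
        hx'.1 hx'.2.1 hx'.2.2 hy'
      rw [label_symm, label_symm D] at this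
      linarith
    · unfold GaussDiagram.label
      rw [R.harr]
      push Not at hx' hy'
      refine Finset.sum_congr rfl fun z hz => R.term_eq (fun t => ?_) (fun t => ?_)
      · refine R.side_iff p x (z, t) hxm hz fun s hs => ?_
        rcases hs.mem_right with h | h | h
        · exact hx'.1 h
        · exact hx'.2.1 h
        · exact hx'.2.2 h
      · refine R.side_iff q y (z, t) hym hz fun s hs => ?_
        rcases hs.mem_right with h | h | h
        · exact hy'.1 h
        · exact hy'.2.1 h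
        · exact hy'.2.2 h

/-! ### The invariant `phi` -/

/-- The contribution of the pair `(x, y)` to the invariant. -/
noncomputable def G (D : GaussDiagram n) (x y : ℕ) : ℤ :=
  ind (D.IsArrow 0 1 x) * ind (D.IsArrow 2 3 y) * (D.sign x : ℤ) * (D.sign y : ℤ) *
    D.label 0 1 2 3 true false x y * D.label 0 1 2 3 false true x y

/-- The invariant. -/
noncomputable def phi (D : GaussDiagram n) : ℤ := ∑ x ∈ D.arrows, ∑ y ∈ D.arrows, G D x y

theorem isArrow_congr (h : E.strand = D.strand) (i j x : ℕ) :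
    E.IsArrow i j x ↔ D.IsArrow i j x := by
  unfold GaussDiagram.IsArrow
  rw [h]

theorem phi_r3 (R : R3 D E a b c) : phi E = phi D := by
  unfold phi
  rw [R.harr]
  refine Finset.sum_congr rfl fun x hx => Finset.sum_congr rfl fun y hy => ?_
  unfold G
  rw [ind_congr (isArrow_congr R.hstrand 0 1 x), ind_congr (isArrow_congr R.hstrand 2 3 y),
    R.hsign]
  by_cases h1 : D.IsArrow 0 1 x
  · by_cases h2 : D.IsArrow 2 3 y
    · rw [R.label_eq (by decide) (by decide) (by decide) (by decide) (by decide) (by decide)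
        hx hy h1 h2, R.label_eq (by decide) (by decide) (by decide) (by decide) (by decide)
        (by decide) hx hy h1 h2]
    · rw [ind_false h2]; ring
  · rw [ind_false h1]; ring

theorem sum_sdiff_one (s : Finset ℕ) (f : ℕ → ℤ) {a : ℕ} (ha : a ∈ s) (h : f a = 0) :
    ∑ z ∈ s \ {a}, f z = ∑ z ∈ s, f z := by
  rw [← Finset.erase_eq, ← Finset.add_sum_erase s f ha, h, zero_add]

theorem sum_sdiff_two (s : Finset ℕ) (f : ℕ → ℤ) {a b : ℕ} (ha : a ∈ s) (hb : b ∈ s) (hab : a ≠ b)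
    (h : f a + f b = 0) :
    ∑ z ∈ s \ {a, b}, f z = ∑ z ∈ s, f z := by
  have hsub : ({a, b} : Finset ℕ) ⊆ s := by
    intro z hz
    rcases Finset.mem_insert.1 hz with rfl | hz
    · exact ha
    · rw [Finset.mem_singleton.1 hz]; exact hb
  rw [← Finset.sum_sdiff hsub, Finset.sum_pair hab, h, add_zero]

/-- Erasing a self-arrow does not change the invariant. -/
theorem phi_self (D : GaussDiagram n) (a : ℕ) (ha : a ∈ D.arrows)
    (h : D.strand (a, true) = D.strand (a, false)) : phi (D.erase {a}) = phi D := by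
  have hterm : ∀ (p q : Bool) (x y : ℕ), D.term 0 1 2 3 p q x y a = 0 := by
    intro p q x y
    unfold GaussDiagram.term GaussDiagram.half
    have : ∀ k : ℕ, wt 0 1 k * wt 2 3 k = 0 := by
      intro k
      unfold wt
      split_ifs <;> simp_all
    rw [Bool.not_true, Bool.not_false, h]
    have h' := this (D.strand (a, false))
    linear_combination ((D.sign a : ℤ) * sg true * ind (D.Side p x (a, true)) *
      ind (D.Side q y (a, false)) + (D.sign a : ℤ) * sg false * ind (D.Side p x (a, false)) *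
      ind (D.Side q y (a, true))) * h'
  have hlab : ∀ (p q : Bool) (x y : ℕ), (D.erase {a}).label 0 1 2 3 p q x y =
      D.label 0 1 2 3 p q x y := by
    intro p q x y
    exact sum_sdiff_one D.arrows _ ha (hterm p q x y)
  have hG : ∀ x y, G (D.erase {a}) x y = G D x y := by
    intro x y
    unfold G
    rw [hlab, hlab]
    rfl
  have n1 : ¬ D.IsArrow 0 1 a := by
    rintro ⟨h1, h2⟩
    rw [h] at h1
    omega
  have n2 : ¬ D.IsArrow 2 3 a := by
    rintro ⟨h1, h2⟩
    rw [h] at h1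
    omega
  unfold phi
  simp_rw [hG]
  show ∑ x ∈ D.arrows \ {a}, ∑ y ∈ D.arrows \ {a}, G D x y = _
  rw [sum_sdiff_one D.arrows (fun x => ∑ y ∈ D.arrows \ {a}, G D x y) ha]
  · refine Finset.sum_congr rfl fun x _ => ?_
    refine sum_sdiff_one D.arrows _ ha ?_
    unfold G
    rw [ind_false n2]; ring
  · refine Finset.sum_eq_zero fun y _ => ?_
    unfold G
    rw [ind_false n1]; ring

/-- The hypotheses of the move R2. -/
structure R2 (D : GaussDiagram n) (a b : ℕ) : Prop where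
  ha : a ∈ D.arrows
  hb : b ∈ D.arrows
  hab : a ≠ b
  hsign : D.sign b = - D.sign a
  ht : D.Adjacent (a, true) (b, true)
  hh : D.Adjacent (a, false) (b, false)

theorem R2.adj (R : R2 D a b) (t : Bool) : D.Adjacent (a, t) (b, t) := by
  cases t
  · exact R.hh
  · exact R.ht

theorem R2.strand (R : R2 D a b) (t : Bool) : D.strand (a, t) = D.strand (b, t) := (R.adj t).1

/-- The two arrows have the same endpoints with respect to any other arrow. -/
theorem R2.side (R : R2 D a b) (p : Bool) (e : ℕ × Bool) (he : e.1 ∈ D.arrows) (hea : e.1 ≠ a)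
    (heb : e.1 ≠ b) : D.Side p a e ↔ D.Side p b e := by
  unfold GaussDiagram.Side
  refine exists_congr fun t => ?_
  rw [← R.strand t]
  refine and_congr_right fun hs => ?_
  have hadj := (R.adj t).2 e he hs
  have h1 : D.pos e ≠ D.pos (a, t) := fun h => hea (by
    rw [D.pos_inj e (a, t) he R.ha hs h])
  have h2 : D.pos e ≠ D.pos (b, t) := fun h => heb (by
    rw [D.pos_inj e (b, t) he R.hb (hs.trans (R.strand t)) h])
  cases p
  · simp only [Bool.false_eq_true, if_false]
    constructor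
    · intro h
      rcases lt_or_gt_of_ne h2 with h3 | h3
      · exact absurd ⟨h, h3⟩ hadj.1
      · exact h3
    · intro h
      rcases lt_or_gt_of_ne h1 with h3 | h3
      · exact absurd ⟨h, h3⟩ hadj.2
      · exact h3
  · simp only [if_true]
    constructor
    · intro h
      rcases lt_or_gt_of_ne h2 with h3 | h3
      · exact h3
      · exact absurd ⟨h3, h⟩ hadj.2
    · intro h
      rcases lt_or_gt_of_ne h1 with h3 | h3
      · exact h3
      · exact absurd ⟨h3, h⟩ hadj.1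

theorem R2.term_cancel (R : R2 D a b) (i₀ i₁ j₀ j₁ : ℕ) (p q : Bool) (x y : ℕ)
    (hx : x ∈ D.arrows) (hy : y ∈ D.arrows)
    (hxa : x ≠ a) (hxb : x ≠ b) (hya : y ≠ a) (hyb : y ≠ b) :
    D.term i₀ i₁ j₀ j₁ p q x y a + D.term i₀ i₁ j₀ j₁ p q x y b = 0 := by
  unfold GaussDiagram.term GaussDiagram.half
  have e : ∀ t, ind (D.Side p x (a, t)) = ind (D.Side p x (b, t)) := fun t =>
    ind_congr (side_adjacent D p x _ _ hx R.ha R.hb (Ne.symm hxa) (Ne.symm hxb) (R.adj t))
  have f : ∀ t, ind (D.Side q y (a, t)) = ind (D.Side q y (b, t)) := fun t =>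
    ind_congr (side_adjacent D q y _ _ hy R.ha R.hb (Ne.symm hya) (Ne.symm hyb) (R.adj t))
  rw [e, e, f, f, R.strand true, R.hsign, Units.val_neg]
  simp only [Bool.not_true, Bool.not_false]
  rw [R.strand true, R.strand false]
  ring

theorem R2.label_erase (R : R2 D a b) (i₀ i₁ j₀ j₁ : ℕ) (p q : Bool) (x y : ℕ)
    (hx : x ∈ D.arrows) (hy : y ∈ D.arrows)
    (hxa : x ≠ a) (hxb : x ≠ b) (hya : y ≠ a) (hyb : y ≠ b) :
    (D.erase {a, b}).label i₀ i₁ j₀ j₁ p q x y = D.label i₀ i₁ j₀ j₁ p q x y :=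
  sum_sdiff_two D.arrows _ R.ha R.hb R.hab
    (R.term_cancel i₀ i₁ j₀ j₁ p q x y hx hy hxa hxb hya hyb)

theorem R2.label_left (R : R2 D a b) {i₀ i₁ j₀ j₁ : ℕ}
    (h00 : i₀ ≠ j₀) (h01 : i₀ ≠ j₁) (h10 : i₁ ≠ j₀) (h11 : i₁ ≠ j₁)
    (p q : Bool) (y : ℕ) (h : D.IsArrow i₀ i₁ a) :
    D.label i₀ i₁ j₀ j₁ p q a y = D.label i₀ i₁ j₀ j₁ p q b y := by
  have h' : D.IsArrow i₀ i₁ b := by
    unfold GaussDiagram.IsArrow
    rw [← R.strand, ← R.strand]
    exact h
  unfold GaussDiagram.label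
  refine Finset.sum_congr rfl fun z hz => ?_
  by_cases hza : z = a
  · subst hza
    rw [term_zero D p q _ y z (IsArrow.wt_zero h00 h01 h10 h11 h),
      term_zero D p q _ y z (IsArrow.wt_zero h00 h01 h10 h11 h)]
  · by_cases hzb : z = b
    · subst hzb
      rw [term_zero D p q _ y z (IsArrow.wt_zero h00 h01 h10 h11 h'),
        term_zero D p q _ y z (IsArrow.wt_zero h00 h01 h10 h11 h')]
    · unfold GaussDiagram.term GaussDiagram.half
      rw [ind_congr (R.side p (z, true) hz hza hzb), ind_congr (R.side p (z, false) hz hza hzb)]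

theorem R2.label_right (R : R2 D a b) {i₀ i₁ j₀ j₁ : ℕ}
    (h00 : i₀ ≠ j₀) (h01 : i₀ ≠ j₁) (h10 : i₁ ≠ j₀) (h11 : i₁ ≠ j₁)
    (p q : Bool) (x : ℕ) (h : D.IsArrow j₀ j₁ a) :
    D.label i₀ i₁ j₀ j₁ p q x a = D.label i₀ i₁ j₀ j₁ p q x b := by
  have := R.label_left h00.symm h10.symm h01.symm h11.symm q p x h
  rw [label_symm D i₀ i₁ j₀ j₁ p q x a, label_symm D i₀ i₁ j₀ j₁ p q x b] at this
  linarith

theorem R2.isArrow_iff (R : R2 D a b) (i j : ℕ) : D.IsArrow i j a ↔ D.IsArrow i j b := by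
  unfold GaussDiagram.IsArrow
  rw [R.strand, R.strand]

theorem R2.G_left (R : R2 D a b) (y : ℕ) : G D a y + G D b y = 0 := by
  unfold G
  by_cases h : D.IsArrow 0 1 a
  · rw [R.label_left (by decide) (by decide) (by decide) (by decide) _ _ _ h,
      R.label_left (by decide) (by decide) (by decide) (by decide) _ _ _ h,
      ind_congr (R.isArrow_iff 0 1), R.hsign, Units.val_neg]
    ring
  · have h' : ¬ D.IsArrow 0 1 b := fun h' => h ((R.isArrow_iff 0 1).2 h')
    rw [ind_false h, ind_false h']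
    ring

theorem R2.G_right (R : R2 D a b) (x : ℕ) : G D x a + G D x b = 0 := by
  unfold G
  by_cases h : D.IsArrow 2 3 a
  · rw [R.label_right (by decide) (by decide) (by decide) (by decide) _ _ _ h,
      R.label_right (by decide) (by decide) (by decide) (by decide) _ _ _ h,
      ind_congr (R.isArrow_iff 2 3), R.hsign, Units.val_neg]
    ring
  · have h' : ¬ D.IsArrow 2 3 b := fun h' => h ((R.isArrow_iff 2 3).2 h')
    rw [ind_false h, ind_false h']
    ring

theorem phi_r2 (R : R2 D a b) : phi (D.erase {a, b}) = phi D := by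
  have h1 : phi (D.erase {a, b}) = ∑ x ∈ D.arrows \ {a, b}, ∑ y ∈ D.arrows \ {a, b}, G D x y := by
    unfold phi
    refine Finset.sum_congr rfl fun x hx => Finset.sum_congr rfl fun y hy => ?_
    have hx' : x ∈ D.arrows ∧ x ≠ a ∧ x ≠ b := by
      have := Finset.mem_sdiff.1 hx
      simpa using this
    have hy' : y ∈ D.arrows ∧ y ≠ a ∧ y ≠ b := by
      have := Finset.mem_sdiff.1 hy
      simpa using this
    unfold G
    rw [R.label_erase _ _ _ _ _ _ _ _ hx'.1 hy'.1 hx'.2.1 hx'.2.2 hy'.2.1 hy'.2.2,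
      R.label_erase _ _ _ _ _ _ _ _ hx'.1 hy'.1 hx'.2.1 hx'.2.2 hy'.2.1 hy'.2.2]
    rfl
  rw [h1]
  unfold phi
  rw [sum_sdiff_two D.arrows (fun x => ∑ y ∈ D.arrows \ {a, b}, G D x y) R.ha R.hb R.hab]
  · refine Finset.sum_congr rfl fun x _ => ?_
    exact sum_sdiff_two D.arrows _ R.ha R.hb R.hab (R.G_right x)
  · rw [← Finset.sum_add_distrib]
    exact Finset.sum_eq_zero fun y _ => R.G_left y

/-! ### Invariance under relabelling -/

/-- The hypotheses of the move `iso`. -/
structure Iso (D E : GaussDiagram n) (f : ℕ → ℕ) : Prop where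
  hf : Set.BijOn f D.arrows E.arrows
  hsign : ∀ a ∈ D.arrows, E.sign (f a) = D.sign a
  hstrand : ∀ a ∈ D.arrows, ∀ s : Bool, E.strand (f a, s) = D.strand (a, s)
  hpos : ∀ a ∈ D.arrows, ∀ b ∈ D.arrows, ∀ s t : Bool, D.strand (a, s) = D.strand (b, t) →
        (D.pos (a, s) < D.pos (b, t) ↔ E.pos (f a, s) < E.pos (f b, t))

theorem Iso.side {f : ℕ → ℕ} (I : Iso D E f) (p : Bool) (x z : ℕ) (s : Bool)
    (hx : x ∈ D.arrows) (hz : z ∈ D.arrows) : E.Side p (f x) (f z, s) ↔ D.Side p x (z, s) := by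
  unfold GaussDiagram.Side
  refine exists_congr fun t => ?_
  rw [I.hstrand z hz, I.hstrand x hx]
  refine and_congr_right fun h => ?_
  cases p
  · simp only [Bool.false_eq_true, if_false]
    exact (I.hpos x hx z hz t s h.symm).symm
  · simp only [if_true]
    exact (I.hpos z hz x hx s t h).symm

theorem Iso.sum {f : ℕ → ℕ} (I : Iso D E f) (F : ℕ → ℤ) :
    ∑ x ∈ E.arrows, F x = ∑ x ∈ D.arrows, F (f x) := by
  symm
  refine Finset.sum_bij (fun x _ => f x) ?_ ?_ ?_ ?_
  · intro x hx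
    exact I.hf.1 hx
  · intro x hx y hy h
    exact I.hf.2.1 hx hy h
  · intro y hy
    obtain ⟨x, hx, rfl⟩ := I.hf.2.2 hy
    exact ⟨x, hx, rfl⟩
  · intro x _
    rfl

theorem Iso.label {f : ℕ → ℕ} (I : Iso D E f) (i₀ i₁ j₀ j₁ : ℕ) (p q : Bool) (x y : ℕ)
    (hx : x ∈ D.arrows) (hy : y ∈ D.arrows) :
    E.label i₀ i₁ j₀ j₁ p q (f x) (f y) = D.label i₀ i₁ j₀ j₁ p q x y := by
  unfold GaussDiagram.label
  rw [I.sum]
  refine Finset.sum_congr rfl fun z hz => ?_
  unfold GaussDiagram.term GaussDiagram.half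
  rw [I.hsign z hz, I.hstrand z hz, I.hstrand z hz, I.hstrand z hz, I.hstrand z hz]
  simp only [Bool.not_true, Bool.not_false]
  rw [ind_congr (I.side p x z true hx hz), ind_congr (I.side p x z false hx hz),
    ind_congr (I.side q y z true hy hz), ind_congr (I.side q y z false hy hz)]

theorem phi_iso {f : ℕ → ℕ} (I : Iso D E f) : phi E = phi D := by
  unfold phi
  rw [I.sum]
  refine Finset.sum_congr rfl fun x hx => ?_
  rw [I.sum]
  refine Finset.sum_congr rfl fun y hy => ?_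
  unfold G GaussDiagram.IsArrow
  rw [I.hsign x hx, I.hsign y hy, I.hstrand x hx, I.hstrand x hx, I.hstrand y hy, I.hstrand y hy,
    I.label _ _ _ _ _ _ _ _ hx hy, I.label _ _ _ _ _ _ _ _ hx hy]

/-! ### Conclusion -/

theorem phi_move : ∀ {D E : GaussDiagram n}, Move D E → phi D = phi E
  | _, _, .iso _ _ _ hf hsign hstrand hpos => (phi_iso ⟨hf, hsign, hstrand, hpos⟩).symm
  | _, _, .r1 D a ha h => (phi_self D a ha h.1).symm
  | _, _, .r2 _ _ _ ha hb hab hsign ht hh => (phi_r2 ⟨ha, hb, hab, hsign, ht, hh⟩).symm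
  | _, _, .r3 _ _ _ _ _ ha hb hc hab hac hbc htop hmid hbot h1 h2 h3 harr hsign hstrand hpair
      hpos =>
    (phi_r3 ⟨ha, hb, hc, hab, hac, hbc, htop, hmid, hbot, h1, h2, h3, harr, hsign, hstrand,
      hpair, hpos⟩).symm
  | _, _, .sv D a ha h => (phi_self D a ha h).symm

theorem phi_equiv {D E : GaussDiagram n} (h : SVEquiv D E) : phi D = phi E := by
  induction h with
  | rel _ _ h => exact phi_move h
  | refl _ => rfl
  | symm _ _ _ ih => exact ih.symm
  | trans _ _ _ _ _ ih1 ih2 => exact ih1.trans ih2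

theorem exists_of_label_ne_zero {D : GaussDiagram n} {i₀ i₁ j₀ j₁ : ℕ} {p q : Bool} {x y : ℕ}
    (h : D.label i₀ i₁ j₀ j₁ p q x y ≠ 0) :
    ∃ z ∈ D.arrows, ∃ t : Bool, D.Side p x (z, t) ∧ D.Side q y (z, !t) := by
  by_contra hcon
  push Not at hcon
  apply h
  unfold GaussDiagram.label
  refine Finset.sum_eq_zero fun z hz => ?_
  have key : ∀ t, D.half i₀ i₁ j₀ j₁ p q x y z t = 0 := by
    intro t
    unfold GaussDiagram.half
    by_cases h1 : D.Side p x (z, t)
    · rw [ind_false (hcon z hz t h1)]; ring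
    · rw [ind_false h1]; ring
  unfold GaussDiagram.term
  rw [key, key]; ring

theorem phi_monotone {D : GaussDiagram n} (h : D.IsMonotone) : phi D = 0 := by
  obtain ⟨ht, h1, h2⟩ := h
  have lev : ∀ a ∈ D.arrows, ∀ s t : Bool, ht (a, s) = ht (a, t) := by
    intro a ha s t
    cases s <;> cases t
    · rfl
    · exact (h1 a ha).symm
    · exact h1 a ha
    · rfl
  have hbefore : ∀ x ∈ D.arrows, ∀ z ∈ D.arrows, ∀ t, D.Side true x (z, t) →
      ht (z, true) < ht (x, true) := by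
    rintro x hx z hz t ⟨b, hb, hb'⟩
    simp only [if_true] at hb'
    rw [lev z hz true t, lev x hx true b]
    exact h2 _ _ hz hx hb hb'
  have hafter : ∀ x ∈ D.arrows, ∀ z ∈ D.arrows, ∀ t, D.Side false x (z, t) →
      ht (x, true) < ht (z, true) := by
    rintro x hx z hz t ⟨b, hb, hb'⟩
    simp only [Bool.false_eq_true, if_false] at hb'
    rw [lev z hz true t, lev x hx true b]
    exact h2 _ _ hx hz hb.symm hb'
  unfold phi
  refine Finset.sum_eq_zero fun x hx => Finset.sum_eq_zero fun y hy => ?_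
  unfold G
  by_cases hA : D.label 0 1 2 3 true false x y = 0
  · rw [hA]; ring
  · by_cases hB : D.label 0 1 2 3 false true x y = 0
    · rw [hB]; ring
    · exfalso
      obtain ⟨z, hz, t, hz1, hz2⟩ := exists_of_label_ne_zero hA
      obtain ⟨w, hw, s, hw1, hw2⟩ := exists_of_label_ne_zero hB
      have a1 := hbefore x hx z hz _ hz1
      have a2 := hafter y hy z hz _ hz2
      have a3 := hafter x hx w hw _ hw1
      have a4 := hbefore y hy w hw _ hw2
      linarith

/-! ### The example -/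

/-- The strand of an endpoint of the example. -/
def exS (e : ℕ × Bool) : ℕ :=
  match e with
  | (0, true) => 0
  | (0, false) => 1
  | (1, true) => 2
  | (1, false) => 3
  | (_, true) => 3
  | (_, false) => 1

/-- The position of an endpoint of the example. -/
def exP (e : ℕ × Bool) : ℕ :=
  match e with
  | (0, _) => 1
  | (1, _) => 1
  | (2, true) => 0
  | (2, false) => 2
  | (_, true) => 2
  | (_, false) => 0

theorem exS_lt (e : ℕ × Bool) : exS e < 4 := by
  unfold exS
  split <;> norm_num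

theorem ex_inj : ∀ a ∈ ({0, 1, 2, 3} : Finset ℕ), ∀ b ∈ ({0, 1, 2, 3} : Finset ℕ),
    ∀ s t : Bool, exS (a, s) = exS (b, t) → exP (a, s) = exP (b, t) → a = b ∧ s = t := by
  decide

/-- The example: an arrow `0` from strand 0 to strand 1, an arrow `1` from strand 2 to strand 3,
and two arrows `2`, `3` from strand 3 to strand 1. On strand 1 we meet `3, 0, 2` in this order, on
strand 3 we meet `2, 1, 3`. -/
noncomputable def ex (hn : 4 ≤ n) : GaussDiagram n where
  arrows := {0, 1, 2, 3}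
  sign := fun _ => 1
  strand := fun e => ⟨exS e, (exS_lt e).trans_le hn⟩
  pos := fun e => exP e
  pos_inj := by
    intro e f he hf h1 h2
    have h1' : exS e = exS f := congrArg Fin.val h1
    have h2' : exP e = exP f := by exact_mod_cast h2
    obtain ⟨h3, h4⟩ := ex_inj e.1 he f.1 hf e.2 f.2 h1' h2'
    exact Prod.ext h3 h4

theorem ex_side (hn : 4 ≤ n) (p : Bool) (x : ℕ) (e : ℕ × Bool) :
    (ex hn).Side p x e ↔
      (exS e = exS (x, true) ∧ (if p then exP e < exP (x, true) else exP (x, true) < exP e)) ∨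
      (exS e = exS (x, false) ∧ (if p then exP e < exP (x, false) else exP (x, false) < exP e)) := by
  unfold GaussDiagram.Side
  rw [Bool.exists_bool, or_comm]
  cases p <;> simp [ex, Fin.ext_iff]

/-- A computable version of the label. -/
def exTerm (p q : Bool) (x y z : ℕ) (b : Bool) : ℤ :=
  sg b * wt 0 1 (exS (z, b)) * wt 2 3 (exS (z, !b)) *
   (if (exS (z, b) = exS (x, true) ∧
      (if p then exP (z, b) < exP (x, true) else exP (x, true) < exP (z, b))) ∨
      (exS (z, b) = exS (x, false) ∧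
      (if p then exP (z, b) < exP (x, false) else exP (x, false) < exP (z, b))) then 1 else 0) *
   (if (exS (z, !b) = exS (y, true) ∧
      (if q then exP (z, !b) < exP (y, true) else exP (y, true) < exP (z, !b))) ∨
      (exS (z, !b) = exS (y, false) ∧
      (if q then exP (z, !b) < exP (y, false) else exP (y, false) < exP (z, !b))) then 1 else 0)

theorem ex_half (hn : 4 ≤ n) (p q : Bool) (x y z : ℕ) (b : Bool) :
    (ex hn).half 0 1 2 3 p q x y z b = exTerm p q x y z b := by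
  unfold GaussDiagram.half exTerm
  rw [ind_congr (ex_side hn p x (z, b)), ind_congr (ex_side hn q y (z, !b)), ind_eq_ite, ind_eq_ite]
  simp only [ex, Units.val_one, one_mul]

theorem ex_label (hn : 4 ≤ n) (p q : Bool) (x y : ℕ) :
    (ex hn).label 0 1 2 3 p q x y =
      ∑ z ∈ ({0, 1, 2, 3} : Finset ℕ), (exTerm p q x y z true + exTerm p q x y z false) := by
  unfold GaussDiagram.label GaussDiagram.term
  simp_rw [ex_half hn]
  rfl

theorem ex_G (hn : 4 ≤ n) (x y : ℕ) : G (ex hn) x y =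
    (if exS (x, true) = 0 ∧ exS (x, false) = 1 then 1 else 0) *
    (if exS (y, true) = 2 ∧ exS (y, false) = 3 then 1 else 0) *
    (∑ z ∈ ({0, 1, 2, 3} : Finset ℕ), (exTerm true false x y z true + exTerm true false x y z false))
    * (∑ z ∈ ({0, 1, 2, 3} : Finset ℕ),
      (exTerm false true x y z true + exTerm false true x y z false)) := by
  unfold G
  rw [ex_label, ex_label,
    ind_congr (show (ex hn).IsArrow 0 1 x ↔ (exS (x, true) = 0 ∧ exS (x, false) = 1) from Iff.rfl),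
    ind_congr (show (ex hn).IsArrow 2 3 y ↔ (exS (y, true) = 2 ∧ exS (y, false) = 3) from Iff.rfl),
    ind_eq_ite, ind_eq_ite]
  have h1 : ∀ z, (((ex hn).sign z : ℤˣ) : ℤ) = 1 := fun _ => rfl
  rw [h1, h1, mul_one, mul_one]

theorem phi_ex (hn : 4 ≤ n) : phi (ex hn) = 1 := by
  unfold phi
  simp_rw [ex_G hn]
  show (∑ x ∈ ({0, 1, 2, 3} : Finset ℕ), ∑ y ∈ ({0, 1, 2, 3} : Finset ℕ), _) = (1 : ℤ)
  decide

/-- For every `n ≥ 4` there is an `n`-component virtual string link which is not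
equivalent, up to the Reidemeister moves and self-virtualization, to any monotone diagram. -/
theorem main (n : ℕ) (hn : 4 ≤ n) :
    ∃ D : GaussDiagram n, ∀ D' : GaussDiagram n, D'.IsMonotone → ¬ SVEquiv D D' := by
  refine ⟨ex hn, fun D' hD' h => ?_⟩
  have h1 := phi_equiv h
  rw [phi_ex hn, phi_monotone hD'] at h1
  exact one_ne_zero h1

end Pool.Agent.Lib.MP_a283c1_gt
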